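import Pool.Agent.Helper16.PP.PUPR
import Pool.Agent.Helper40.RD.TRF
import Pool.Agent.Helper14.RD.TOW
import Pool.Agent.Helper50.LE.CH2
import Pool.Agent.Helper19.RD.FIN
import Pool.Agent.Helper81.RS.SEX
import Pool.Agent.Helper51.RP.Goals2
import Mathlib.RingTheory.DedekindDomain.Different

/-!
# Project PP (MP_fc6b1e_nt), packet P_SCH: choice of `S`
-/

set_option autoImplicit false

namespace Pool.Agent.Helper46.PP.Sch

open NumberField Polynomial Module IsDedekindDomain Pool.Agent.Helper51.SigLeo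
open Pool.Agent.Helper51.RP Pool.Agent.Helper42.RD Pool.Agent.Helper42.PP
open Pool.Agent.Helper40.RS (bel)
open Pool.Agent.Helper40.RD (bel_of_above ordW)
open Pool.Agent.Helper38.RS (pz)
open Pool.Agent.Helper99.RS (pz_mono pz_union pz_finite finite_bad)
open Pool.Agent.Helper99.RSP (pw_down)

theorem sex : Pool.Agent.Helper51.RP.S_SEX := Pool.Agent.Helper81.RS.s_sex

theorem psm : Pool.Agent.Helper38.RS.S_PSM :=
  Pool.Agent.Helper59.RS.s_psm Pool.Agent.Helper58.RS.s_eul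
    (Pool.Agent.Helper61.RS.s_zet Pool.Agent.Helper58.RS.s_eul)

/-- An element which is not a `p`-th power is not locally a `p`-th power at some prime. -/
theorem exists_not_loc (p : ℕ) [hpF : Fact p.Prime] (E : Type) [Field E] [NumberField E]
    (ε x : E) (hε : IsPrimitiveRoot ε p) (hx : x ≠ 0) (hxp : ¬ ∃ y : E, y ^ p = x) :
    ∃ W : HeightOneSpectrum (𝓞 E), ¬ LocPow p W x := by
  by_contra hcon
  push Not at hcon
  obtain ⟨C, hC⟩ := Pool.Agent.Helper50.LE.sp_kum_all p E ε x hε hx hxp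
  obtain ⟨C', hC'⟩ := psm E
  have hp1 : 1 < p := hpF.out.one_lt
  have hpE : (p : E) ≠ 0 := Nat.cast_ne_zero.2 (by omega)
  have hfin := finite_bad (F := E) hpE
  have key : ∀ s : ℝ, 1 < s → s ≤ 2 →
      (1 - 1 / (p : ℝ)) * Real.log (1 / (s - 1)) ≤ C + C' + hfin.toFinset.card := by
    intro s hs1 hs2
    have h1 := hC s hs1 hs2
    have h2 := (abs_le.1 (hC' s hs1 hs2)).1
    have h3 : pz (F := E) Set.univ s ≤
        pz {v : HeightOneSpectrum (𝓞 E) | v.valuation E (p : E) = 1 ∧ LocPow p v x} s +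
        pz {w : HeightOneSpectrum (𝓞 E) | w.valuation E (p : E) ≠ 1} s := by
      refine le_trans (pz_mono ?_ s hs1) (pz_union _ _ s hs1)
      intro v _
      by_cases hv : v.valuation E (p : E) = 1
      · exact Or.inl ⟨hv, hcon v⟩
      · exact Or.inr hv
    have h4 := pz_finite hfin s hs1
    have h5 : (1 - 1 / (p : ℝ)) * Real.log (1 / (s - 1)) =
        Real.log (1 / (s - 1)) - 1 / (p : ℝ) * Real.log (1 / (s - 1)) := by ring
    linarith
  have hpos : 0 < 1 - 1 / (p : ℝ) := by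
    have h : (1 : ℝ) < p := by exact_mod_cast hp1
    rw [sub_pos, div_lt_one (by linarith)]
    exact h
  obtain ⟨D, hD⟩ : ∃ D : ℝ, D = C + C' + hfin.toFinset.card := ⟨_, rfl⟩
  obtain ⟨T, hT⟩ : ∃ T : ℝ, T = max 0 (D / (1 - 1 / (p : ℝ)) + 1) := ⟨_, rfl⟩
  have hT0 : 0 ≤ T := hT ▸ le_max_left _ _
  have hT1 : D / (1 - 1 / (p : ℝ)) + 1 ≤ T := hT ▸ le_max_right _ _
  have h := key (1 + Real.exp (-T)) (by have := Real.exp_pos (-T); linarith)
    (by have := Real.exp_le_one_iff.2 (neg_nonpos.2 hT0); linarith)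
  rw [add_sub_cancel_left, one_div (Real.exp (-T)), ← Real.exp_neg, neg_neg, Real.log_exp,
    ← hD] at h
  have h6 := mul_le_mul_of_nonneg_left hT1 hpos.le
  rw [mul_add, mul_div_cancel₀ _ hpos.ne', mul_one] at h6
  linarith

/-- A finite set of primes which detects the `p`-th powers among the elements with valuations
divisible by `p`. -/
theorem avoid (p : ℕ) [hpF : Fact p.Prime] (F E : Type) [Field F] [NumberField F] [Field E]
    [NumberField E] [Algebra F E] [IsGalois F E] (hcop : (finrank F E).Coprime p) (ε : E)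
    (hε : IsPrimitiveRoot ε p) :
    ∃ A : Finset (HeightOneSpectrum (𝓞 F)), ∀ x : Fˣ,
      (∀ w : HeightOneSpectrum (𝓞 F), (p : ℤ) ∣ ordv w (x : F)) →
      (∀ w ∈ A, LocPow p w (x : F)) → Pw p x := by
  classical
  have hfd : FiniteDimensional F E := Module.Finite.of_restrictScalars_finite ℚ F E
  obtain ⟨n, hn⟩ := Pool.Agent.Helper19.RD.d_fin p F
  let Q : Finset Fˣ → Prop := fun X =>
    (∀ x ∈ X, ∀ w : HeightOneSpectrum (𝓞 F), (p : ℤ) ∣ ordv w (x : F)) ∧
    (∀ x ∈ X, ∀ y ∈ X, x ≠ y → ¬ Pw p (x / y)) ∧ ∀ x ∈ X, ¬ Pw p x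
  obtain ⟨X, hX, hmax⟩ : ∃ X, Q X ∧ ∀ Y, Q Y → Y.card ≤ X.card := by
    have hbd : BddAbove {k : ℕ | ∃ Y, Q Y ∧ Y.card = k} := by
      refine ⟨n, ?_⟩
      rintro k ⟨Y, hY, rfl⟩
      exact hn Y hY.1 hY.2.1
    have hne : {k : ℕ | ∃ Y, Q Y ∧ Y.card = k}.Nonempty := by
      refine ⟨0, ∅, ⟨?_, ?_, ?_⟩, Finset.card_empty⟩
      · intro x hx
        exact absurd hx (Finset.notMem_empty x)
      · intro x hx
        exact absurd hx (Finset.notMem_empty x)
      · intro x hx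
        exact absurd hx (Finset.notMem_empty x)
    obtain ⟨X, hX, hc⟩ := Nat.sSup_mem hne hbd
    refine ⟨X, hX, fun Y hY => ?_⟩
    rw [hc]
    exact le_csSup hbd ⟨Y, hY, rfl⟩
  have hW : ∀ x : {x // x ∈ X}, ∃ w : HeightOneSpectrum (𝓞 F),
      ¬ LocPow p w (((x : Fˣ)) : F) := by
    rintro ⟨x, hx⟩
    have h1 : ¬ ∃ y : E, y ^ p = algebraMap F E (x : F) := by
      rintro ⟨y, hy⟩
      exact hX.2.2 x hx (pw_down p hcop x y hy)
    obtain ⟨W, hW⟩ := exists_not_loc p E ε _ hε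
      ((map_ne_zero (algebraMap F E)).2 x.ne_zero) h1
    exact ⟨bel F W, fun h =>
      hW (((Pool.Agent.Helper40.RD.e_trf p F E hcop W (bel F W) rfl).2 _).2 h)⟩
  choose w hw using hW
  refine ⟨Finset.univ.image w, fun x hx hloc => ?_⟩
  by_contra hxp
  have h1 : ∃ y ∈ X, Pw p (x / y) := by
    by_contra hno
    push Not at hno
    have hxX : x ∉ X := by
      intro h
      apply hno x h
      rw [div_self']
      exact ⟨1, (one_pow p).symm⟩
    have hQ : Q (insert x X) := by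
      refine ⟨?_, ?_, ?_⟩
      · intro z hz
        rcases Finset.mem_insert.1 hz with rfl | hz
        · exact hx
        · exact hX.1 z hz
      · intro a ha b hb hab
        rcases Finset.mem_insert.1 ha with ha1 | ha1
        · rcases Finset.mem_insert.1 hb with hb1 | hb1
          · exact absurd (ha1.trans hb1.symm) hab
          · rw [ha1]
            exact hno b hb1
        · rcases Finset.mem_insert.1 hb with hb1 | hb1
          · rw [hb1]
            rintro ⟨y, hy⟩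
            apply hno a ha1
            exact ⟨y⁻¹, by rw [inv_pow, ← hy, inv_div]⟩
          · exact hX.2.1 a ha1 b hb1 hab
      · intro z hz
        rcases Finset.mem_insert.1 hz with rfl | hz
        · exact hxp
        · exact hX.2.2 z hz
    have h2 := hmax _ hQ
    rw [Finset.card_insert_of_notMem hxX] at h2
    omega
  obtain ⟨y, hy, z, hz⟩ := h1
  apply hw ⟨y, hy⟩
  obtain ⟨t, ht⟩ := hloc (w ⟨y, hy⟩) (Finset.mem_image_of_mem _ (Finset.mem_univ _))
  refine ⟨(z : F) * t, ?_⟩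
  have h2 : (x : F) = y * (z : F) ^ p := by
    have h3 : x = y * z ^ p := by rw [← hz, mul_div_cancel]
    rw [h3, Units.val_mul, Units.val_pow_eq_pow_val]
  rw [h2] at ht
  show (w ⟨y, hy⟩).valuation F ((y : F) * ((z : F) * t) ^ p - 1) < 1
  rw [mul_pow, ← mul_assoc]
  exact ht

/-- Only finitely many primes ramify. -/
theorem ram_fin (K N : Type) [Field K] [NumberField K] [Field N] [NumberField N] [Algebra K N] :
    {v : HeightOneSpectrum (𝓞 K) | ∃ V : HeightOneSpectrum (𝓞 N), Above V v ∧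
      v.asIdeal.map (algebraMap (𝓞 K) (𝓞 N)) ≤ V.asIdeal ^ 2}.Finite := by
  have hfd : FiniteDimensional K N := Module.Finite.of_restrictScalars_finite ℚ K N
  have hD : differentIdeal (𝓞 K) (𝓞 N) ≠ ⊥ := differentIdeal_ne_bot
  have h1 : {V : HeightOneSpectrum (𝓞 N) | V.asIdeal ∣ differentIdeal (𝓞 K) (𝓞 N)}.Finite :=
    Ideal.finite_factors hD
  refine (h1.biUnion (t := fun V => {v : HeightOneSpectrum (𝓞 K) | Above V v}) ?_).subset ?_
  · intro V _
    refine Set.Subsingleton.finite ?_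
    intro v hv v' hv'
    exact HeightOneSpectrum.ext (hv.symm.trans hv')
  · rintro v ⟨V, hV, hV2⟩
    refine Set.mem_biUnion (x := V) ?_ hV
    have hm : v.asIdeal.IsMaximal := v.isMaximal
    have h2 := pow_sub_one_dvd_differentIdeal (A := 𝓞 K) (B := 𝓞 N) V.asIdeal 2 v.ne_bot
      (Ideal.dvd_iff_le.2 hV2)
    simpa using h2

theorem ord_eq {K N : Type} [Field K] [NumberField K] [Field N] [NumberField N] [Algebra K N]
    {v : HeightOneSpectrum (𝓞 K)} {W : HeightOneSpectrum (𝓞 N)} (hW : Above W v)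
    (hv : ¬ v.asIdeal.map (algebraMap (𝓞 K) (𝓞 N)) ≤ W.asIdeal ^ 2) (x : K) :
    ordv W (algebraMap K N x) = ordv v x := by
  obtain rfl := bel_of_above hW
  have h1 : (bel K W).asIdeal.ramificationIdx' W.asIdeal = 1 := by
    refine Ideal.ramificationIdx'_spec ?_ hv
    rw [pow_one, Ideal.map_le_iff_le_comap]
    exact (show W.asIdeal.comap (algebraMap (𝓞 K) (𝓞 N)) = (bel K W).asIdeal from hW).ge
  rw [ordW, h1, Nat.cast_one, one_mul]

/-- **Packet PP-B-PSCH.** -/
theorem p_sch (h1 : P_LFI) : P_SCH := by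
  classical
  intro p hpF K M K₁ M₁ _ _ _ _ _ _ _ _ _ _ _ _ _ _ _ _ _ _ ε hT
  obtain ⟨hg1, hg2, hc1, hc2, -, -⟩ := Pool.Agent.Helper14.RD.e_tow p K M K₁ M₁ ε hT
  have hprim : IsPrimitiveRoot (algebraMap K₁ M₁ ε) p :=
    hT.prim.map_of_injective (algebraMap K₁ M₁).injective
  obtain ⟨A, hA⟩ := avoid p M M₁ hc1 _ hprim
  obtain ⟨B, hB⟩ := avoid p K₁ M₁ hc2 _ hprim
  obtain ⟨S1, hS1, -, -, hp1⟩ := sex K M ∅ Set.finite_empty
  obtain ⟨S2, hS2, -, -, hp2⟩ := sex K K₁ ∅ Set.finite_empty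
  obtain ⟨S3, hS3, -, -, hp3⟩ := sex K M₁ ∅ Set.finite_empty
  have hpK : (p : K) ≠ 0 := Nat.cast_ne_zero.2 hpF.out.ne_zero
  have hfp := finite_bad (F := K) hpK
  have hrm := ram_fin K M₁
  set S : Finset (HeightOneSpectrum (𝓞 K)) := hfp.toFinset ∪ hrm.toFinset ∪
    (hS1.image (bel K)).toFinset ∪ (hS2.image (bel K)).toFinset ∪ (hS3.image (bel K)).toFinset ∪
    A.image (bel K) ∪ B.image (bel K) with hSdef
  have hSp : ∀ v : HeightOneSpectrum (𝓞 K), v.valuation K (p : K) < 1 → v ∈ S := by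
    intro v hv
    have h : v ∈ hfp.toFinset := by
      rw [Set.Finite.mem_toFinset]
      exact hv.ne
    simp only [hSdef, Finset.mem_union]
    tauto
  have hSr : ∀ v : HeightOneSpectrum (𝓞 K), v ∉ S → v ∉ hrm.toFinset := by
    intro v hv h
    apply hv
    simp only [hSdef, Finset.mem_union]
    tauto
  have hSe1 : ∀ w : HeightOneSpectrum (𝓞 M), w ∈ S1 → w ∈ up M S := by
    intro w hw
    refine ⟨bel K w, ?_, rfl⟩
    have h : bel K w ∈ (hS1.image (bel K)).toFinset := by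
      rw [Set.Finite.mem_toFinset]
      exact Set.mem_image_of_mem _ hw
    simp only [hSdef, Finset.mem_union]
    tauto
  have hSe2 : ∀ w : HeightOneSpectrum (𝓞 K₁), w ∈ S2 → w ∈ up K₁ S := by
    intro w hw
    refine ⟨bel K w, ?_, rfl⟩
    have h : bel K w ∈ (hS2.image (bel K)).toFinset := by
      rw [Set.Finite.mem_toFinset]
      exact Set.mem_image_of_mem _ hw
    simp only [hSdef, Finset.mem_union]
    tauto
  have hSe3 : ∀ w : HeightOneSpectrum (𝓞 M₁), w ∈ S3 → w ∈ up M₁ S := by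
    intro w hw
    refine ⟨bel K w, ?_, rfl⟩
    have h : bel K w ∈ (hS3.image (bel K)).toFinset := by
      rw [Set.Finite.mem_toFinset]
      exact Set.mem_image_of_mem _ hw
    simp only [hSdef, Finset.mem_union]
    tauto
  have hSA : ∀ w : HeightOneSpectrum (𝓞 M), w ∈ A → w ∈ up M S := by
    intro w hw
    refine ⟨bel K w, ?_, rfl⟩
    have h : bel K w ∈ A.image (bel K) := Finset.mem_image_of_mem _ hw
    simp only [hSdef, Finset.mem_union]
    tauto
  have hSB : ∀ w : HeightOneSpectrum (𝓞 K₁), w ∈ B → w ∈ up K₁ S := by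
    intro w hw
    refine ⟨bel K w, ?_, rfl⟩
    have h : bel K w ∈ B.image (bel K) := Finset.mem_image_of_mem _ hw
    simp only [hSdef, Finset.mem_union]
    tauto
  clear_value S
  have hord0 : ∀ (F : Type) [Field F] [NumberField F] (w : HeightOneSpectrum (𝓞 F)) (x : F),
      w.valuation F x = 1 → ordv w x = 0 := by
    intro F _ _ w x h
    unfold ordv
    rw [h, WithZero.log_one, neg_zero]
  refine ⟨S, hSp, ?_, ?_, ?_, ?_, ?_, ?_⟩
  · intro v hv W hW x
    refine ord_eq hW (fun h => ?_) x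
    apply hSr v hv
    rw [Set.Finite.mem_toFinset]
    exact ⟨W, hW, h⟩
  · intro n
    obtain ⟨x, hx⟩ := hp1 n
    exact ⟨x, fun w hw => hx w fun h => hw (hSe1 w h)⟩
  · intro n
    obtain ⟨x, hx⟩ := hp2 n
    exact ⟨x, fun w hw => hx w fun h => hw (hSe2 w h)⟩
  · intro n
    obtain ⟨x, hx⟩ := hp3 n
    exact ⟨x, fun w hw => hx w fun h => hw (hSe3 w h)⟩
  · intro x hx hl
    obtain ⟨f1, f2, f3, -⟩ := Pool.Agent.Helper16.PP.p_upr p K M S
    obtain ⟨G, hG, -, -, -, hGl⟩ := h1 p K M (up M S) f1 (f3 hSp) f2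
    have hxG : x ∈ G := (hG x).2 hl
    refine hA x (fun w => ?_) (fun w hw => (hGl x hxG w (hSA w hw)).2)
    by_cases hw : w ∈ up M S
    · exact (hGl x hxG w hw).1
    · rw [hord0 M w _ (hx w hw)]
      exact dvd_zero _
  · intro x hx hl
    obtain ⟨f1, f2, f3, -⟩ := Pool.Agent.Helper16.PP.p_upr p K K₁ S
    obtain ⟨G, hG, -, -, -, hGl⟩ := h1 p K K₁ (up K₁ S) f1 (f3 hSp) f2
    have hxG : x ∈ G := (hG x).2 hl
    refine hB x (fun w => ?_) (fun w hw => (hGl x hxG w (hSB w hw)).2)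
    by_cases hw : w ∈ up K₁ S
    · exact (hGl x hxG w hw).1
    · rw [hord0 K₁ w _ (hx w hw)]
      exact dvd_zero _

end Pool.Agent.Helper46.PP.Sch

namespace Pool.Agent.Helper46.PP

theorem p_sch (h1 : Pool.Agent.Helper42.PP.P_LFI) : Pool.Agent.Helper42.PP.P_SCH :=
  Sch.p_sch h1

end Pool.Agent.Helper46.PP
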