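import Pool.Agent.Helper22.PP.DPRD

/-!
# Project PP (MP_fc6b1e_nt), packet PP-DUNQ: uniqueness of `N`
-/

set_option autoImplicit false

namespace Pool.Agent.Helper46.PP

open NumberField Polynomial Module IsDedekindDomain
open Pool.Agent.Helper51.RP Pool.Agent.Helper11.LE Pool.Agent.Helper11.PP

theorem gen_one {p : ℕ} [hpF : Fact p.Prime] {K K₁ : Type} [Field K] [NumberField K] [Field K₁]
    [NumberField K₁] [Algebra K K₁] {ε : K₁} (hC : Cyc p K K₁ ε)
    (j : K₁ →+* AlgebraicClosure K) (N : IntermediateField K (AlgebraicClosure K)) :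
    Gen p j (1 : K₁ˣ) N := by
  intro s hs g _ hgj
  have hne : NeZero p := ⟨hpF.out.ne_zero⟩
  rw [Units.val_one, map_one] at hs
  have hprim : IsPrimitiveRoot (j ε) p := hC.prim.map_of_injective j.injective
  obtain ⟨i, -, hi⟩ := hprim.eq_pow_of_pow_eq_one hs
  rw [← hi, map_pow, hgj]

theorem d_unq : Pool.Agent.Helper11.PP.D_UNQ := by
  intro p hpF K K₁ _ _ _ _ _ ε hC j hj a ha N hN N' hN' h1 h2
  have hp : p.Prime := hpF.out
  obtain ⟨hd, hg⟩ := hN
  obtain ⟨hd', hg'⟩ := hN'
  have hf : FiniteDimensional K N := FiniteDimensional.of_finrank_pos (by rw [hd]; exact hp.pos)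
  have hf' : FiniteDimensional K N' :=
    FiniteDimensional.of_finrank_pos (by rw [hd']; exact hp.pos)
  have hle : N' ≤ N ⊔ N :=
    Pool.Agent.Helper22.PP.le_sup hC j hj (N := N) (N' := N) (N'' := N') hd' (a := a) (a' := 1)
      (by rwa [mul_one]) h1 (gen_one hC j N) (by rwa [mul_one])
  rw [sup_idem] at hle
  exact (IntermediateField.eq_of_le_of_finrank_eq hle (hd'.trans hd.symm)).symm

end Pool.Agent.Helper46.PP
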