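import Pool.Agent.Helper11.PP.GoalsD
import Pool.Agent.Helper79.RD.GOO
import Pool.Agent.Helper9.RP.P1
import Pool.Agent.Helper16.RP.LA
import Pool.Agent.Helper94.RP.RAT
import Pool.Agent.Helper79.RP.HIL
import Pool.Agent.Helper12.RP.ROO
import Pool.Agent.Helper20.RP.TAM
import Pool.Agent.Helper72.RD.TOR
import Pool.Agent.Helper42.RS.RAM

/-! PP: D_GOO (trivial Selmer group implies good). -/

namespace Pool.Agent.Helper46.PP

open NumberField Polynomial Module IsDedekindDomain TensorProduct Pool.Agent.Helper51.SigLeo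
open Pool.Agent.Helper51.RP Pool.Agent.Helper42.RD Pool.Agent.Helper79.RD Pool.Agent.Helper11.PP

/-- The statement from `RP.S_P1` and `RD.E_TOR`. -/
theorem d_goo_of (h1 : S_P1) (h4 : E_TOR) : D_GOO := by
  intro p hpf K _ _ ιinf ιp L S hcl M _ _ χ₀ hχ₀ hcopM hnotle δ Φ P hδ hPhi
    M₁ _ _ _ _ hcop ε a hε ha hadm hsel j hj s hs hns N hNp hNg hgen H hH χ hχ hχχ
  subst hH
  have hp := hpf.out
  have hfM : FiniteDimensional K M := FiniteDimensional.right ℚ K M
  have hM0 : 0 < finrank K M := finrank_pos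
  have hN0 : 0 < finrank K N := by rw [hNp]; exact hp.pos
  have hfN : FiniteDimensional K N := FiniteDimensional.of_finrank_pos hN0
  have hMg : IsGalois K M := inferInstance
  have hnM : Normal K M := inferInstance
  have hnN : Normal K N := inferInstance
  have hnΩ : Normal K (AlgebraicClosure K) := inferInstance
  have hgΩ : IsGalois K (AlgebraicClosure K) := inferInstance
  have hfM₁ : FiniteDimensional M M₁ := FiniteDimensional.right ℚ M M₁
  let _ : Algebra K M₁ := ((algebraMap M M₁).comp (algebraMap K M)).toAlgebra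
  have ht1 : IsScalarTower K M M₁ := IsScalarTower.of_algebraMap_eq fun _ => rfl
  have hfKM₁ : FiniteDimensional K M₁ := Module.Finite.trans M M₁
  have hjc : ∀ c : K, j (algebraMap K M₁ c) = algebraMap K (AlgebraicClosure K) c := fun c =>
    hj (algebraMap K M c)
  let jK : M₁ →ₐ[K] AlgebraicClosure K := { j with commutes' := hjc }
  have hjK : ∀ x, jK x = j x := fun x => rfl
  set E : IntermediateField K (AlgebraicClosure K) := jK.fieldRange with hE
  have hjE : ∀ x : M₁, j x ∈ E := fun x => ⟨x, rfl⟩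
  have hEj : ∀ y ∈ E, ∃ x : M₁, j x = y := fun y hy => hy
  have hME : M ≤ E := fun x hx => by
    have := hjE (algebraMap M M₁ ⟨x, hx⟩)
    rwa [hj] at this
  have hrankE : finrank K E = finrank K M₁ :=
    (LinearEquiv.finrank_eq (AlgEquiv.ofInjectiveField jK).toLinearEquiv).symm
  have hfE : FiniteDimensional K E := FiniteDimensional.of_finrank_pos (by
    rw [hrankE]; exact finrank_pos)
  set H₁ : IntermediateField K (AlgebraicClosure K) := E ⊔ N with hH₁
  have hjH : ∀ x : M₁, j x ∈ H₁ := fun x => (le_sup_left : E ≤ H₁) (hjE x)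
  have hsH : s ∈ H₁ := mem_of_fixed fun g hg =>
    hgen g (fun y hy => hg y ((le_sup_right : N ≤ H₁) hy)) (fun x => hg _ (hjH x))
  have hle : M ⊔ N ≤ H₁ := sup_le_sup_right hME N
  have hfH₁ : FiniteDimensional K H₁ := inferInstance
  have hfH : FiniteDimensional K (M ⊔ N : IntermediateField K (AlgebraicClosure K)) :=
    inferInstance
  have hnfH₁ : NumberField H₁ := NumberField.of_module_finite K H₁
  have hnfH : NumberField (M ⊔ N : IntermediateField K (AlgebraicClosure K)) :=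
    NumberField.of_module_finite K _
  -- the automorphism
  have haM₁ : (a : M₁) ≠ 0 := RingOfIntegers.coe_ne_zero_iff.2 ha
  have hr := no_root hp hε j haM₁ hs hns
  obtain ⟨gK, hgj, hgs⟩ : ∃ gK : AlgebraicClosure K ≃ₐ[K] AlgebraicClosure K,
      (∀ x, gK (j x) = j x) ∧ gK s = j ε * s := by
    let _ : Algebra M₁ (AlgebraicClosure K) := j.toAlgebra
    have ht2 : IsScalarTower K M₁ (AlgebraicClosure K) :=
      IsScalarTower.of_algebraMap_eq fun c => (hjc c).symm
    have hn2 : Normal M₁ (AlgebraicClosure K) :=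
      Normal.tower_top_of_normal K M₁ (AlgebraicClosure K)
    obtain ⟨-, g, hg⟩ := exists_kummer hp hε (s := s) (a := (a : M₁)) hs hr
    exact ⟨g.restrictScalars K, fun x => g.commutes x, hg⟩
  have hgE : ∀ x ∈ E, gK x = x := by
    intro x hx
    obtain ⟨y, rfl⟩ := hEj x hx
    exact hgj y
  have hgE' : ∀ x ∈ E, gK.symm x = x := by
    intro x hx
    rw [AlgEquiv.symm_apply_eq]
    exact (hgE x hx).symm
  have hgM : ∀ x ∈ M, gK x = x := fun x hx => hgE x (hME hx)
  have hgM' : ∀ x ∈ M, gK.symm x = x := fun x hx => hgE' x (hME hx)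
  have hst1 : ∀ x ∈ H₁, gK x ∈ H₁ := map_sup_mem gK fun x hx => by rw [hgE x hx]; exact hx
  have hst2 : ∀ x ∈ H₁, gK.symm x ∈ H₁ := map_sup_mem gK.symm fun x hx => by
    rw [hgE' x hx]; exact hx
  have hst3 : ∀ x ∈ M ⊔ N, gK x ∈ M ⊔ N := map_sup_mem gK fun x hx => by rw [hgM x hx]; exact hx
  have hst4 : ∀ x ∈ M ⊔ N, gK.symm x ∈ M ⊔ N := map_sup_mem gK.symm fun x hx => by
    rw [hgM' x hx]; exact hx
  obtain ⟨d, hd1, hd2⟩ := exists_ext hM0 hN0 hMg hNg (by rw [hNp]; exact hcopM) δ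
  have hst5 : ∀ x ∈ M ⊔ N, d x ∈ M ⊔ N := map_sup_mem d fun x hx => map_mem_normal d hx
  have hst6 : ∀ x ∈ M ⊔ N, d.symm x ∈ M ⊔ N := map_sup_mem d.symm fun x hx =>
    map_mem_normal d.symm hx
  -- algebras
  let _ : Algebra M (M ⊔ N : IntermediateField K (AlgebraicClosure K)) :=
    (IntermediateField.inclusion (le_sup_left : M ≤ M ⊔ N)).toRingHom.toAlgebra
  have ht3 : IsScalarTower K M (M ⊔ N : IntermediateField K (AlgebraicClosure K)) :=
    IsScalarTower.of_algebraMap_eq fun x => rfl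
  let _ : Algebra M₁ H₁ := (j.codRestrict H₁ hjH).toAlgebra
  have hcM₁ : ∀ x : M₁, ((algebraMap M₁ H₁ x : H₁) : AlgebraicClosure K) = j x := fun x => rfl
  have ht4 : IsScalarTower K M₁ H₁ := IsScalarTower.of_algebraMap_eq fun x =>
    Subtype.ext (hjc x).symm
  let _ : Algebra (M ⊔ N : IntermediateField K (AlgebraicClosure K)) H₁ :=
    (IntermediateField.inclusion hle).toRingHom.toAlgebra
  have hfMH : FiniteDimensional M (M ⊔ N : IntermediateField K (AlgebraicClosure K)) :=
    FiniteDimensional.right K M _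
  have hfM₁H₁ : FiniteDimensional M₁ H₁ := FiniteDimensional.right K M₁ H₁
  -- degrees
  have hdegH : finrank M (M ⊔ N : IntermediateField K (AlgebraicClosure K)) = p := by
    have e1 := Module.finrank_mul_finrank K M (M ⊔ N : IntermediateField K (AlgebraicClosure K))
    rw [finrank_sup_coprime hM0 hN0 (by rw [hNp]; exact hcopM), hNp] at e1
    exact Nat.eq_of_mul_eq_mul_left hM0 e1
  set s₁ : H₁ := ⟨s, hsH⟩ with hs₁
  have hs₁p : s₁ ^ p = algebraMap M₁ H₁ (a : M₁) := Subtype.ext hs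
  have hdegH₁ : finrank M₁ H₁ = p := by
    have e1 := Module.finrank_mul_finrank K M₁ H₁
    have e2 : finrank K H₁ ≤ finrank K E * finrank K N := IntermediateField.finrank_sup_le E N
    rw [hrankE, hNp, ← e1] at e2
    have e3 : finrank M₁ H₁ ≤ p := Nat.le_of_mul_le_mul_left e2 finrank_pos
    have e4 : minpoly M₁ s₁ = X ^ p - C (a : M₁) :=
      (minpoly.eq_of_irreducible_of_monic (X_pow_sub_C_irreducible_of_prime hp hr)
        (by rw [map_sub, map_pow, aeval_X, aeval_C, hs₁p, sub_self])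
        (monic_X_pow_sub_C _ hp.ne_zero)).symm
    have e5 : finrank M₁ (IntermediateField.adjoin M₁ {s₁}) = p := by
      rw [IntermediateField.adjoin.finrank (Algebra.IsIntegral.isIntegral s₁), e4,
        natDegree_X_pow_sub_C]
    have e6 : p ∣ finrank M₁ H₁ := by
      rw [← Module.finrank_mul_finrank M₁ (IntermediateField.adjoin M₁ {s₁}) H₁, e5]
      exact dvd_mul_right _ _
    exact le_antisymm e3 (Nat.le_of_dvd finrank_pos e6)
  set γ := res gK hst3 hst4 with hγ
  set δ' := res d hst5 hst6 with hδ'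
  set γ₁K := res gK hst1 hst2 with hγ₁K
  let γ₁ : H₁ ≃ₐ[M₁] H₁ := AlgEquiv.ofRingEquiv (f := (γ₁K : H₁ ≃+* H₁)) fun x =>
    Subtype.ext (hgj x)
  have hγ₁ : ∀ x : H₁, ((γ₁ x : H₁) : AlgebraicClosure K) = gK x := fun x => rfl
  have hγM : ∀ x : M, γ (algebraMap M _ x) = algebraMap M _ x := fun x =>
    Subtype.ext (hgM x x.2)
  have hδM : ∀ x : M, δ' (algebraMap M _ x) = algebraMap M _ (δ x) := fun x =>
    Subtype.ext (hd1 x)
  have hγp : γ ^ p = 1 := by
    ext y
    rw [hγ, res_pow]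
    exact eq_on_sup (f := gK ^ p) (g := 1) (fun x hx => fix_pow (hgM x hx) p)
      (pow_fix (by rw [hNp]) hN0 hNg gK) y y.2
  have hγ1 : γ ≠ 1 := by
    intro h
    have e1 : ∀ y ∈ N, gK y = y := by
      intro y hy
      have e2 := AlgEquiv.congr_fun h ⟨y, (le_sup_right : N ≤ M ⊔ N) hy⟩
      exact congrArg Subtype.val e2
    have e3 := hgen gK e1 hgj
    rw [hgs] at e3
    have hs0 : s ≠ 0 := by
      intro h0
      rw [h0, zero_pow hp.ne_zero] at hs
      exact haM₁ (j.injective (by rw [← hs, map_zero]))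
    have e4 : j ε = 1 := by
      have : (j ε - 1) * s = 0 := by rw [sub_mul, e3, one_mul, sub_self]
      rcases mul_eq_zero.1 this with h' | h'
      · exact sub_eq_zero.1 h'
      · exact absurd h' hs0
    have e5 : ε = 1 := j.injective (by rw [e4, map_one])
    exact hε.ne_one hp.one_lt e5
  have hγo : orderOf γ = p := orderOf_eq_prime hγp hγ1
  have hδpow : ∀ (n : ℕ) (x : M), (d ^ n) (x : AlgebraicClosure K) = ((δ ^ n) x : M) := by
    intro n
    induction n with
    | zero => intro x; rfl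
    | succ n ih => intro x; rw [pow_succ', pow_succ', AlgEquiv.mul_apply, AlgEquiv.mul_apply, ih, hd1]
  have hδ'm : δ' ^ finrank K M = 1 := by
    ext y
    rw [hδ', res_pow]
    refine eq_on_sup (f := d ^ finrank K M) (g := 1) (fun x hx => ?_)
      (fun x hx => fix_pow (hd2 x hx) _) y y.2
    have e1 := hδpow (finrank K M) ⟨x, hx⟩
    rw [← hδ, pow_orderOf_eq_one] at e1
    rw [← hδ]
    exact e1
  have hδ'o : orderOf δ' = finrank K M := by
    apply Nat.dvd_antisymm (orderOf_dvd_of_pow_eq_one hδ'm)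
    rw [← hδ]
    apply orderOf_dvd_of_pow_eq_one
    ext x
    rw [← hδpow]
    have e1 := res_pow d hst5 hst6 (orderOf δ') ⟨x, (le_sup_left : M ≤ M ⊔ N) x.2⟩
    rw [← hδ', pow_orderOf_eq_one] at e1
    exact e1.symm
  have hcomm : ∀ y : (M ⊔ N : IntermediateField K (AlgebraicClosure K)), γ (δ' y) = δ' (γ y) := by
    intro y
    apply Subtype.ext
    rw [hγ, hδ', res_coe, res_coe, res_coe, res_coe]
    refine eq_on_sup (f := gK * d) (g := d * gK) (fun x hx => ?_) (fun x hx => ?_) y y.2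
    · change gK (d x) = d (gK x)
      rw [hgM x hx, hgM _ (map_mem_normal d hx)]
    · change gK (d x) = d (gK x)
      rw [hd2 x hx, hd2 _ (map_mem_normal gK hx)]
  have hdata : HData (p := p) K M (M ⊔ N : IntermediateField K (AlgebraicClosure K)) M₁ H₁
      (finrank K M) δ γ δ' γ₁ (TSet ιinf ιp S) ε a s₁ :=
    { order := hδ
      deg := rfl
      degH := hdegH
      degH₁ := hdegH₁
      compat := fun x => Subtype.ext (hj x)
      cop := hcop
      gal := inferInstance
      prim := hε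
      ne := ha
      adm := hadm
      pow := hs₁p
      γs := Subtype.ext hgs
      ext := fun y => rfl
      γM := hγM
      γo := hγo
      δM := hδM
      δo := hδ'o
      comm := hcomm
      closed := hcl }
  have htor : TorOK P δ' := by
    refine h4 p ℂ_[p] (finrank K M) _ Φ P hPhi K _ δ' hδ'm fun ξ hξ => ?_
    have e1 := prim_fixed hp γ hγp hξ
    obtain ⟨ξ₀, hξ₀⟩ := Pool.Agent.Helper79.RP.fix_mem hp γ hγM hdegH hγ1 e1
    have e2 : (ξ₀ : AlgebraicClosure K) = (ξ : AlgebraicClosure K) := congrArg Subtype.val hξ₀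
    have e3 : IsPrimitiveRoot (ξ : AlgebraicClosure K) p :=
      hξ.map_of_injective (f := (M ⊔ N : IntermediateField K (AlgebraicClosure K)).val)
        (RingHom.injective _)
    have e4 := hnotle _ e3
    rw [← e2] at e4
    obtain ⟨e, he1, he2, he3⟩ := tor_part hMg hM0 δ hδ ξ₀ e4
    refine ⟨e, he1, he2, ?_⟩
    apply Subtype.ext
    rw [hδ', res_pow, ← e2, hδpow, he3]
  have hSel : ∀ x : Mˣ, Sel L (above (TSet ιinf ιp S)) P δ (algebraMap (𝓞 M₁) M₁ a) x →
      Pw p x := hsel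
  have hne : Nonempty (AlgebraicClosure ℚ →+* ℂ_[p]) :=
    Pool.Agent.Helper50.RS.nonempty_hom ℚ ℂ_[p]
  have hχγ : IsPrimitiveRoot ((χ γ : ℂ_[p]ˣ) : ℂ_[p]) p := by
    have e1 : orderOf (χ γ) = p := by rw [orderOf_injective χ hχ γ, hγo]
    have e2 : orderOf ((χ γ : ℂ_[p]ˣ) : ℂ_[p]) = p := by rw [orderOf_units, e1]
    have e3 := IsPrimitiveRoot.orderOf ((χ γ : ℂ_[p]ˣ) : ℂ_[p])
    rwa [e2] at e3
  have hχδ : χ δ' = χ₀ δ := by
    refine eq_of_coprime_pow hcopM ?_ ?_ ?_
    · rw [← map_pow, hδ'm, map_one]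
    · rw [← map_pow, ← hδ, pow_orderOf_eq_one, map_one]
    · apply hχχ
      intro x y hxy
      have hy : y = algebraMap M _ x := Subtype.ext hxy
      rw [hy, hδM]
      rfl
  intro x hx
  refine h1 p ℂ_[p] hne L K M (M ⊔ N : IntermediateField K (AlgebraicClosure K)) M₁ H₁
    (finrank K M) δ γ δ' γ₁ (TSet ιinf ιp S) ε a s₁ _ Φ P hPhi hdata htor hSel _ hχγ
    (eChi (finrank K (M ⊔ N : IntermediateField K (AlgebraicClosure K))) χ unitsHom x) ?_ ?_ ?_
  · rw [Pool.Agent.Helper50.RS.eig_eChi]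
  · rw [Pool.Agent.Helper50.RS.eig_eChi, hχδ]
  · intro τ' hτ'
    apply hx
    obtain ⟨σ, hσ⟩ := exists_lift_embedding ιp τ'
    obtain ⟨σ₀, g1, g2⟩ := hτ'
    refine ⟨σ, ?_, ?_⟩
    · have g3 : σ.comp (algebraMap K (M ⊔ N : IntermediateField K (AlgebraicClosure K))) = σ₀ := by
        apply Pool.Agent.Helper50.RS.comp_inj ιp
        show ιp.comp (σ.comp (algebraMap K _)) = ιp.comp σ₀
        rw [← g2, ← hσ]
        rfl
      rw [g3]
      exact g1
    · rw [hσ]

/-- **Packet PP-DGOO.** -/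
theorem d_goo : D_GOO :=
  d_goo_of (Pool.Agent.Helper9.RP.s_p1 Pool.Agent.Helper16.RP.s_la Pool.Agent.Helper94.RP.s_rat
    (Pool.Agent.Helper79.RP.s_hil Pool.Agent.Helper12.RP.s_roo Pool.Agent.Helper42.RS.s_ram_p
      Pool.Agent.Helper20.RP.s_tam)) Pool.Agent.Helper72.RD.e_tor

end Pool.Agent.Helper46.PP
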