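import Pool.Agent.Helper46.PP.PSCH

/-!
# Project PP: the generic form of the last two parts of P_SCH (without `Tower`)
-/

set_option autoImplicit false

namespace Pool.Agent.Helper46.PP.Sch

open NumberField Polynomial Module IsDedekindDomain Pool.Agent.Helper51.SigLeo
open Pool.Agent.Helper51.RP Pool.Agent.Helper42.RD Pool.Agent.Helper42.PP
open Pool.Agent.Helper40.RS (bel)

/-- For `S` large enough an `S`-unit of `E` which satisfies `LocS` is a `p`-th power. -/
theorem unit_pw (h1 : P_LFI) (p : ℕ) [hpF : Fact p.Prime] (K E F : Type) [Field K] [NumberField K]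
    [Field E] [NumberField E] [Field F] [NumberField F] [Algebra K E] [Algebra E F]
    [IsGalois K E] [IsGalois E F] (hcop : (finrank E F).Coprime p) (ε : F)
    (hε : IsPrimitiveRoot ε p) :
    ∃ S₁ : Finset (HeightOneSpectrum (𝓞 K)), ∀ S : Finset (HeightOneSpectrum (𝓞 K)), S₁ ⊆ S →
      (∀ v : HeightOneSpectrum (𝓞 K), v.valuation K (p : K) < 1 → v ∈ S) →
      ∀ x ∈ (up E S).unit E, LocS p (up E S) x → Pw p x := by
  classical
  obtain ⟨A, hA⟩ := avoid p E F hcop ε hε
  refine ⟨A.image (bel K), fun S hS hSp x hx hl => ?_⟩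
  have hSA : ∀ w : HeightOneSpectrum (𝓞 E), w ∈ A → w ∈ up E S := fun w hw =>
    ⟨bel K w, hS (Finset.mem_image_of_mem _ hw), rfl⟩
  obtain ⟨f1, f2, f3, -⟩ := Pool.Agent.Helper16.PP.p_upr p K E S
  obtain ⟨G, hG, -, -, -, hGl⟩ := h1 p K E (up E S) f1 (f3 hSp) f2
  have hxG : x ∈ G := (hG x).2 hl
  refine hA x (fun w => ?_) (fun w hw => (hGl x hxG w (hSA w hw)).2)
  by_cases hw : w ∈ up E S
  · exact (hGl x hxG w hw).1
  · have h2 : w.valuation E (x : E) = 1 := hx w hw
    have h3 : ordv w (x : E) = 0 := by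
      unfold ordv
      rw [h2, WithZero.log_one, neg_zero]
    rw [h3]
    exact dvd_zero _

end Pool.Agent.Helper46.PP.Sch
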